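import Mathlib
import Pool.Agent.N785.MG.Sys
import Pool.Agent.N785.MG.Fin2

/-!
# Maier's phenomenon for the prime values of `m³ + k`, of all polynomials and of all systems

The conjecture of Hardy and Littlewood on `m³ + k` (and that of Bateman and Horn) suggests that for `k` of size
`X` and `u` small compared to `X` the number of `u < m ≤ u + h` with `m³ + k` prime is about `C_k h / log X` as soon
as this number tends to infinity. We show that this is false, by a constant factor, for windows of every length
`h ≤ (log X)^Λ`, for a positive proportion of all `k ≤ X`, and already for `u ≤ exp((log X)^ε)`. The theorem is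
proved for all systems `g_1 + c_1, ..., g_k + c_k`, where the `g_i` are arbitrary nonconstant integral polynomials
with positive leading coefficients (also equal ones) and the vector `c` of the constant terms runs over `[1, X]^k`;
the case of `m³ + k` is `k = 1`, `g_1 = x³`.

Proof (Maier's matrix method, with the rows indexed by the classes of `c` modulo a product of primes). Let `P` be
the product of the primes `p ≤ z = (log X)^ε`, apart from the multiples of a possible exceptional modulus and of one
more prime. For a vector `γ` modulo `P` the sum over `c ≡ γ` of the numbers of the `m` in a window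
with all `g_i(m) + c_i` prime is given by the prime number theorem for progressions modulo `P` and is proportional to
the number of the `m` in the window with `∏ (g_i(m) + γ_i)` prime to `P`. Its mean value over the `u` for which
every prime `y < p ≤ z` divides `∏ (g_i(u) + γ_i)` (if this is possible) is a product of local factors which
deviates from the expected value because of the integers `r ≤ z^s` without prime factors in `(y, z]`; the sign of
the deviation depends on the parity of the integral part of `s`. Second moments over `γ` and over `c ≡ γ` (the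
sieve of Selberg for pairs) give a positive proportion of the vectors `c`.
-/

set_option autoImplicit false

namespace Pool.Agent.Results.MP_4d57ea_nt.IrregularWindows

open Finset Polynomial

/-- the number of the residues `t` modulo `p` for which `p` divides one of the `g_i(t) + c_i` -/
noncomputable def rootCount {k : ℕ} (g : Fin k → ℤ[X]) (c : Fin k → ℕ) (p : ℕ) : ℕ :=
  Nat.card {t : ℕ // t < p ∧ ∃ i, (p : ℤ) ∣ (g i).eval (t : ℤ) + c i}

/-- the product `∏_{p ≤ w} (1 - ω(p) / p) / (1 - 1 / p)^k` of Bateman and Horn for the system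
`g_1 + c_1, ..., g_k + c_k`, cut at `w`; here `ω(p)` is `rootCount g c p` -/
noncomputable def constant {k : ℕ} (g : Fin k → ℤ[X]) (c : Fin k → ℕ) (w : ℕ) : ℝ :=
  ∏ p ∈ (Icc 1 w).filter Nat.Prime, ((1 - (rootCount g c p : ℝ) / p) / (1 - 1 / (p : ℝ)) ^ k)

/-- the number of the `u < m ≤ v` for which all the `g_i(m) + c_i` are (positive) primes -/
noncomputable def primeCount {k : ℕ} (g : Fin k → ℤ[X]) (c : Fin k → ℕ) (u v : ℕ) : ℕ :=
  Nat.card {m : ℕ // u < m ∧ m ≤ v ∧ ∀ i, ((g i).eval (m : ℤ) + c i).toNat.Prime}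

/-- **Maier's phenomenon for polynomials and systems.** Let `g_1, ..., g_k`, `k ≥ 1`, be nonconstant polynomials
with integral coefficients and positive leading coefficients, `Λ ≥ 1`, `ε > 0`. There are `δ, κ > 0` and `K` such
that for all large `X`, every `h` with `K (log X)^k ≤ h ≤ (log X)^Λ` and every `w` with
`log X ≤ w ≤ X^(1/5)` at least `κ X^k` of the `c ∈ [1, X]^k` have a positive constant
`∏_{p ≤ w} (1 - ω(p)/p) / (1 - 1/p)^k` and a window `(u, u + h]` with `u ≤ exp((log X)^ε)` which contains at least
`(1 + δ)` times the expected number of `m` for which all `g_i(m) + c_i` are prime, and at least `κ X^k` of the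
`c ∈ [1, X]^k` have one which contains at most `(1 - δ)` times this number. -/
theorem result (k : ℕ) (hk : 1 ≤ k) (g : Fin k → ℤ[X])
    (hg : ∀ i, 0 < (g i).natDegree ∧ 0 < (g i).leadingCoeff) (Λ ε : ℝ) (hΛ : 1 ≤ Λ) (hε : 0 < ε) :
    ∃ δ κ K : ℝ, 0 < δ ∧ δ < 1 ∧ 0 < κ ∧ ∃ X₀ : ℕ, ∀ X : ℕ, X₀ ≤ X → ∀ h w : ℕ,
      K * (Real.log X) ^ k ≤ h → (h : ℝ) ≤ (Real.log X) ^ Λ → Real.log X ≤ w → (w : ℝ) ≤ (X : ℝ) ^ (1 / 5 : ℝ) →
      κ * (X : ℝ) ^ k ≤ Nat.card {c : Fin k → ℕ // (∀ i, c i ∈ Icc 1 X) ∧ 0 < constant g c w ∧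
        ∃ u : ℕ, (u : ℝ) ≤ Real.exp ((Real.log X) ^ ε) ∧
          (1 + δ) * (constant g c w * (h / (Real.log X) ^ k)) ≤ primeCount g c u (u + h)} ∧
      κ * (X : ℝ) ^ k ≤ Nat.card {c : Fin k → ℕ // (∀ i, c i ∈ Icc 1 X) ∧ 0 < constant g c w ∧
        ∃ u : ℕ, (u : ℝ) ≤ Real.exp ((Real.log X) ^ ε) ∧
          (primeCount g c u (u + h) : ℝ) ≤ (1 - δ) * (constant g c w * (h / (Real.log X) ^ k))} := by
  classical
  have e1 : ∀ (c : Fin k → ℕ) (p : ℕ), rootCount g c p = Pool.Agent.N785.MG.nuk g p (Pool.Agent.N785.MG.zv c) := by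
    intro c p
    unfold rootCount Pool.Agent.N785.MG.nuk
    refine Nat.subtype_card _ (fun t => ?_)
    rw [mem_filter, mem_range]
    rfl
  have e2 : ∀ (c : Fin k → ℕ) (w : ℕ), constant g c w =
      Pool.Agent.N785.MG.bhk g (Pool.Agent.N785.MG.prs w) (Pool.Agent.N785.MG.zv c) := by
    intro c w
    unfold constant Pool.Agent.N785.MG.bhk Pool.Agent.N785.MG.prs
    simp only [e1]
  have e3 : ∀ (c : Fin k → ℕ) (u h : ℕ), primeCount g c u (u + h) =
      Pool.Agent.N785.MG.cntk g (Pool.Agent.N785.MG.zv c) u h := by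
    intro c u h
    unfold primeCount Pool.Agent.N785.MG.cntk
    have e4 : Nat.card {m : ℕ // u < m ∧ m ≤ u + h ∧ ∀ i, ((g i).eval (m : ℤ) + c i).toNat.Prime} =
        ((Ioc u (u + h)).filter (fun m : ℕ => ∀ i, ((g i).eval (m : ℤ) + c i).toNat.Prime)).card := by
      refine Nat.subtype_card _ (fun t => ?_)
      rw [mem_filter, mem_Ioc]
      tauto
    rw [e4]
    refine card_nbij' (fun m => m - u) (fun r => u + r) ?_ ?_ ?_ ?_
    · intro m hm
      rw [mem_coe, mem_filter, mem_Ioc] at hm
      rw [mem_coe, mem_filter, mem_Icc]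
      beta_reduce
      refine ⟨by omega, ?_⟩
      have e : u + (m - u) = m := by omega
      rw [e]
      exact hm.2
    · intro r hr
      rw [mem_coe, mem_filter, mem_Icc] at hr
      rw [mem_coe, mem_filter, mem_Ioc]
      beta_reduce
      exact ⟨by omega, hr.2⟩
    · intro m hm
      rw [mem_coe, mem_filter, mem_Ioc] at hm
      simp only
      omega
    · intro r _
      simp
  obtain ⟨δ, κ, K, hδ, hδ1, hκ, X₀, hmain⟩ :=
    Pool.Agent.N785.MG.fin2 Pool.Agent.N785.MG.s_KA k g ⟨hk, hg⟩ Λ ε hΛ hε
  refine ⟨δ, κ, K, hδ, hδ1, hκ, X₀, ?_⟩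
  intro X hX h w h1 h2 h3 h4
  simp only [e2, e3]
  exact hmain X hX h w h1 h2 h3 h4

end Pool.Agent.Results.MP_4d57ea_nt.IrregularWindows
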