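import Mathlib
import Pool.Agent.N909.TF.Tools

set_option autoImplicit false

/-!
# `m³ + k` in every sequential random model of the primes, uniformly in `k`

The integers are decided one after the other, only integers coprime to a fixed `Q` can be chosen, and
the conditional probability of choosing `n + 1` (coprime to `Q`) given the past is asymptotic to
`(Q / φ(Q)) / log n`.  No independence and no rate is assumed.  Almost surely the number of the chosen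
values of `m³ + k`, `1 ≤ m ≤ x`, is asymptotic to its expected order, uniformly for all integers `k`
with `- x ^ (3 - 1 / D) ≤ k ≤ x ^ C`, for all `C` and `D`.
-/

open MeasureTheory Filter
open scoped Topology

namespace Pool.Agent.Results.MP_4d57ea_nt.SievedModels

/-- the `m`, `1 ≤ m ≤ x`, for which `m³ + k` is at least `2` and belongs to `S` -/
def hits (S : Set ℕ) (k : ℤ) (x : ℕ) : Set ℕ :=
  {m | 1 ≤ m ∧ m ≤ x ∧ ∃ a ∈ S, 2 ≤ a ∧ (a : ℤ) = (m : ℤ) ^ 3 + k}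

open Classical in
/-- `E_k(x)`: the sum of `(Q / φ(Q)) / log (m³ + k)` over the `m`, `1 ≤ m ≤ x`, for which `m³ + k` is
at least `2` and coprime to `Q` -/
noncomputable def E (Q : ℕ) (k : ℤ) (x : ℕ) : ℝ :=
  ∑ m ∈ (Finset.Icc 1 x).filter (fun m : ℕ => 2 ≤ (m : ℤ) ^ 3 + k ∧ IsCoprime ((m : ℤ) ^ 3 + k) (Q : ℤ)),
    ((Q : ℝ) / Nat.totient Q) / Real.log ((m : ℝ) ^ 3 + k)

/-- `- x ^ (3 - 1 / D) ≤ k ≤ x ^ C` -/
def Adm (C D : ℕ) (k : ℤ) (x : ℕ) : Prop :=
  (0 ≤ k → k ≤ (x : ℤ) ^ C) ∧ (k < 0 → (-k) ^ D ≤ (x : ℤ) ^ (3 * D - 1))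

open Pool.Agent.N909.TF Pool.Agent.R528.RM

/-- the value -/
def val (k : ℤ) (m : ℕ) : ℕ := ((m : ℤ) ^ 3 + k).toNat

/-- the possible `m` -/
def J (k : ℤ) (x : ℕ) : Finset ℕ := (Finset.Icc 1 x).filter (fun m : ℕ => 2 ≤ (m : ℤ) ^ 3 + k)

lemma val_eq {k : ℤ} {m : ℕ} (h : 2 ≤ (m : ℤ) ^ 3 + k) : ((val k m : ℕ) : ℤ) = (m : ℤ) ^ 3 + k := by
  unfold val
  rw [Int.toNat_of_nonneg (by omega)]

lemma val_real {k : ℤ} {m : ℕ} (h : 2 ≤ (m : ℤ) ^ 3 + k) : ((val k m : ℕ) : ℝ) = (m : ℝ) ^ 3 + k := by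
  have := val_eq h
  exact_mod_cast this

lemma val_ge {k : ℤ} {m : ℕ} (h : 2 ≤ (m : ℤ) ^ 3 + k) : 2 ≤ val k m := by
  have := val_eq h
  omega

lemma val_inj {k : ℤ} {m m' : ℕ} (h : 2 ≤ (m : ℤ) ^ 3 + k) (h' : 2 ≤ (m' : ℤ) ^ 3 + k)
    (he : val k m = val k m') : m = m' := by
  have h1 := val_eq h
  have h2 := val_eq h'
  rw [he] at h1
  have h3 : (m : ℤ) ^ 3 = (m' : ℤ) ^ 3 := by linarith
  have h4 : m ^ 3 = m' ^ 3 := by exact_mod_cast h3
  exact Nat.pow_left_injective (by norm_num) h4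

open Classical in
lemma hits_eq (S : Set ℕ) (k : ℤ) (x : ℕ) :
    hits S k x = (((J k x).filter (fun m => ∀ t ∈ ({val k m} : Finset ℕ), t ∈ S) : Finset ℕ) : Set ℕ) := by
  ext m
  unfold hits J
  simp only [Set.mem_ofPred_eq, Finset.coe_filter, Finset.mem_filter, Finset.mem_Icc, Finset.mem_singleton,
    forall_eq]
  constructor
  · rintro ⟨h1, h2, a, h3, h4, h5⟩
    have h6 : 2 ≤ (m : ℤ) ^ 3 + k := by omega
    refine ⟨⟨⟨h1, h2⟩, h6⟩, ?_⟩
    have h7 := val_eq h6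
    have : val k m = a := by omega
    rwa [this]
  · rintro ⟨⟨⟨h1, h2⟩, h3⟩, h4⟩
    exact ⟨h1, h2, val k m, h4, val_ge h3, val_eq h3⟩

/-- an admissible residue class -/
lemma local_ok (Q : ℕ) (hQ : 0 < Q) (k : ℤ) : ∃ r : ℕ, ∀ m, m ≡ r [MOD Q] → 2 ≤ (m : ℤ) ^ 3 + k →
    Nat.Coprime (val k m) Q := by
  classical
  obtain ⟨r, hr⟩ := crt_primes Q (fun l => if (l : ℤ) ∣ k then 1 else 0)
  refine ⟨r, fun m hm h2 => ?_⟩
  rw [coprime_iff_primes]
  intro l hl hlQ hdvd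
  have h1 := hr m hm l hl hlQ hQ.ne'
  have h3 : (l : ℤ) ∣ (m : ℤ) ^ 3 + k := by
    rw [← val_eq h2]
    exact_mod_cast hdvd
  by_cases h : (l : ℤ) ∣ k
  · rw [if_pos h] at h1
    have h4 : (l : ℤ) ∣ (m : ℤ) ^ 3 := (Int.dvd_add_left h).1 h3
    have h5 : l ∣ m ^ 3 := by exact_mod_cast h4
    have h6 : m ^ 3 ≡ 1 ^ 3 [MOD l] := h1.pow 3
    have h7 : l ∣ 1 := by
      have := (h6.dvd_iff (dvd_refl l)).1 h5
      simpa using this
    exact hl.one_lt.ne' (Nat.dvd_one.1 h7)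
  · rw [if_neg h] at h1
    have h4 : l ∣ m := (Nat.modEq_zero_iff_dvd).1 h1
    apply h
    have h5 : (l : ℤ) ∣ (m : ℤ) ^ 3 := dvd_pow (by exact_mod_cast h4) (by norm_num)
    exact (Int.dvd_add_right h5).1 h3

/-- the excluded `m` are small -/
lemma bad_small (C D Q : ℕ) (hQ : 0 < Q) (hD : 1 ≤ D) (x : ℕ) (hx : (8 * Q) ^ (3 * D) * 2 ^ D ≤ x)
    (k : ℤ) (hk : Adm C D k x) (m : ℕ) (hm : 1 ≤ m) (hb : (m : ℤ) ^ 3 + k < 2) : 8 * Q * m ≤ x := by
  have hx1 : 8 * Q ≤ x := by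
    refine le_trans ?_ hx
    calc 8 * Q = (8 * Q) ^ 1 * 1 := by ring
      _ ≤ (8 * Q) ^ (3 * D) * 2 ^ D :=
        Nat.mul_le_mul (Nat.pow_le_pow_right (by omega) (by omega)) Nat.one_le_two_pow
  rcases le_or_gt 0 k with h0 | h0
  · have h1 : (m : ℤ) ^ 3 < 2 := by omega
    have h2 : m < 2 := by
      by_contra hcon
      push Not at hcon
      have h3 : (2 : ℤ) ≤ m := by exact_mod_cast hcon
      have h4 : (2 : ℤ) ^ 3 ≤ (m : ℤ) ^ 3 := pow_le_pow_left₀ (by norm_num) h3 3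
      omega
    have h3 : m = 1 := by omega
    rw [h3, mul_one]
    exact hx1
  · have h1 := hk.2 h0
    set K : ℕ := (-k).toNat with hK
    have hKk : ((K : ℕ) : ℤ) = -k := by rw [hK, Int.toNat_of_nonneg (by omega)]
    have h2 : K ^ D ≤ x ^ (3 * D - 1) := by
      rw [← hKk] at h1
      exact_mod_cast h1
    have h3 : m ^ 3 ≤ 2 * K := by
      have h4 : (m : ℤ) ^ 3 ≤ 2 * K := by omega
      exact_mod_cast h4
    by_contra hcon
    push Not at hcon
    have hx0 : 0 < x := by omega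
    have h5 : x ^ (3 * D) < (8 * Q * m) ^ (3 * D) := Nat.pow_lt_pow_left hcon (by omega)
    have h6 : (8 * Q * m) ^ (3 * D) ≤ (8 * Q) ^ (3 * D) * 2 ^ D * x ^ (3 * D - 1) := by
      calc (8 * Q * m) ^ (3 * D) = (8 * Q) ^ (3 * D) * (m ^ 3) ^ D := by rw [mul_pow, ← pow_mul]
        _ ≤ (8 * Q) ^ (3 * D) * (2 * K) ^ D := Nat.mul_le_mul_left _ (Nat.pow_le_pow_left h3 D)
        _ = (8 * Q) ^ (3 * D) * 2 ^ D * K ^ D := by rw [mul_pow]; ring
        _ ≤ _ := Nat.mul_le_mul_left _ h2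
    have h7 : x ^ (3 * D) = x * x ^ (3 * D - 1) := by
      rw [← pow_succ']
      congr 1
      omega
    have h8 : x * x ^ (3 * D - 1) < (8 * Q) ^ (3 * D) * 2 ^ D * x ^ (3 * D - 1) := by
      rw [← h7]
      exact lt_of_lt_of_le h5 h6
    have h9 := Nat.lt_of_mul_lt_mul_right h8
    omega

/-- size of `k` -/
lemma abs_le_pow (C D : ℕ) (hD : 1 ≤ D) (k : ℤ) (x : ℕ) (hx : 1 ≤ x) (hk : Adm C D k x) :
    |k| ≤ (x : ℤ) ^ (C + 3) := by
  have hx' : (1 : ℤ) ≤ x := by exact_mod_cast hx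
  rcases le_or_gt 0 k with h0 | h0
  · rw [abs_of_nonneg h0]
    exact (hk.1 h0).trans (pow_le_pow_right₀ hx' (by omega))
  · rw [abs_of_neg h0]
    have h1 := hk.2 h0
    have h2 : (-k) ^ D ≤ ((x : ℤ) ^ 3) ^ D := by
      rw [← pow_mul]
      exact h1.trans (pow_le_pow_right₀ hx' (by omega))
    have h3 : -k ≤ (x : ℤ) ^ 3 := by
      by_contra hcon
      push Not at hcon
      exact absurd h2 (not_le.2 (pow_lt_pow_left₀ hcon (by positivity) (by omega)))
    exact h3.trans (pow_le_pow_right₀ hx' (by omega))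

/-- the good `m` -/
def G (Q : ℕ) (k : ℤ) (x : ℕ) : Finset ℕ := (J k x).filter (fun m => Nat.Coprime (val k m) Q)

lemma E_eq (Q : ℕ) (k : ℤ) (x : ℕ) :
    E Q k x = ∑ m ∈ G Q k x, ((Q : ℝ) / Nat.totient Q) / Real.log (val k m) := by
  classical
  unfold E
  have h1 : (Finset.Icc 1 x).filter (fun m : ℕ => 2 ≤ (m : ℤ) ^ 3 + k ∧ IsCoprime ((m : ℤ) ^ 3 + k) (Q : ℤ)) =
      G Q k x := by
    ext m
    unfold G J
    simp only [Finset.mem_filter, Finset.mem_Icc]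
    constructor
    · rintro ⟨h1, h2, h3⟩
      refine ⟨⟨h1, h2⟩, ?_⟩
      rw [← val_eq h2] at h3
      exact Nat.isCoprime_iff_coprime.1 h3
    · rintro ⟨⟨h1, h2⟩, h3⟩
      refine ⟨h1, h2, ?_⟩
      rw [← val_eq h2]
      exact Nat.isCoprime_iff_coprime.2 h3
  rw [h1]
  refine Finset.sum_congr rfl fun m hm => ?_
  unfold G J at hm
  simp only [Finset.mem_filter] at hm
  rw [val_real hm.1.2]

/-- many good `m` -/
lemma G_card (C D Q : ℕ) (hQ : 0 < Q) (hD : 1 ≤ D) (x : ℕ) (hx : (8 * Q) ^ (3 * D) * 2 ^ D ≤ x)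
    (k : ℤ) (hk : Adm C D k x) : (x : ℝ) / (2 * Q) ≤ (G Q k x).card := by
  classical
  have hx1 : 8 * Q ≤ x := by
    refine le_trans ?_ hx
    calc 8 * Q = (8 * Q) ^ 1 * 1 := by ring
      _ ≤ (8 * Q) ^ (3 * D) * 2 ^ D :=
        Nat.mul_le_mul (Nat.pow_le_pow_right (by omega) (by omega)) Nat.one_le_two_pow
  obtain ⟨r, hr⟩ := local_ok Q hQ k
  have h1 := many_class Q r x hQ
  have h2 : ((Finset.Ioc 0 x).filter (fun m => m ≡ r [MOD Q])) ⊆ G Q k x ∪ Finset.Icc 1 (x / (8 * Q)) := by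
    intro m hm
    rw [Finset.mem_filter, Finset.mem_Ioc] at hm
    obtain ⟨⟨m1, m2⟩, m3⟩ := hm
    rw [Finset.mem_union]
    by_cases h : 2 ≤ (m : ℤ) ^ 3 + k
    · left
      unfold G J
      simp only [Finset.mem_filter, Finset.mem_Icc]
      exact ⟨⟨⟨m1, m2⟩, h⟩, hr m m3 h⟩
    · right
      rw [Finset.mem_Icc]
      refine ⟨m1, ?_⟩
      rw [Nat.le_div_iff_mul_le (by omega), mul_comm]
      exact bad_small C D Q hQ hD x hx k hk m m1 (by omega)
  have h3 := (h1.trans (Finset.card_le_card h2)).trans (Finset.card_union_le _ _)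
  rw [Nat.card_Icc, Nat.add_sub_cancel] at h3
  have hQ' : (0 : ℝ) < Q := by exact_mod_cast hQ
  have h4 : ((x / Q : ℕ) : ℝ) ≤ (G Q k x).card + ((x / (8 * Q) : ℕ) : ℝ) := by exact_mod_cast h3
  have h5 : (x : ℝ) / Q - 1 ≤ ((x / Q : ℕ) : ℝ) := by
    have h9 := Nat.lt_div_mul_add (a := x) hQ
    have h10 : (x : ℝ) < ((x / Q : ℕ) : ℝ) * Q + Q := by exact_mod_cast h9
    rw [sub_le_iff_le_add, div_le_iff₀ hQ']
    linarith
  have h6 : ((x / (8 * Q) : ℕ) : ℝ) ≤ (x : ℝ) / (8 * Q) := by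
    have := Nat.cast_div_le (α := ℝ) (m := x) (n := 8 * Q)
    push_cast at this
    exact this
  have h7 : (8 : ℝ) * Q ≤ x := by exact_mod_cast hx1
  have h8 : (x : ℝ) / Q = 8 * (x / (8 * Q)) := by field_simp
  have h9 : (x : ℝ) / (2 * Q) = 4 * (x / (8 * Q)) := by
    field_simp
    ring
  have h10 : 1 ≤ (x : ℝ) / (8 * Q) := by
    rw [one_le_div (by positivity)]
    exact h7
  rw [h8] at h5
  rw [h9]
  linarith

/-- lower bound of the main term -/
lemma E_ge (C D Q : ℕ) (hQ : 0 < Q) (hD : 1 ≤ D) (x : ℕ) (hx : (8 * Q) ^ (3 * D) * 2 ^ D ≤ x)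
    (k : ℤ) (hk : Adm C D k x) : (x : ℝ) / (2 * Q * ((C + 4) * Real.log x)) ≤ E Q k x := by
  have hx8 : 8 ≤ x := by
    refine le_trans ?_ hx
    calc 8 ≤ 8 * Q := by omega
      _ = (8 * Q) ^ 1 * 1 := by ring
      _ ≤ (8 * Q) ^ (3 * D) * 2 ^ D :=
        Nat.mul_le_mul (Nat.pow_le_pow_right (by omega) (by omega)) Nat.one_le_two_pow
  have hx' : (8 : ℝ) ≤ x := by exact_mod_cast hx8
  have hL : 0 < Real.log x := Real.log_pos (by linarith)
  have hQ' : (0 : ℝ) < Q := by exact_mod_cast hQ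
  have hc := cQ_ge Q hQ
  rw [E_eq]
  have h1 : ∀ m ∈ G Q k x, 1 / ((C + 4) * Real.log x) ≤ ((Q : ℝ) / Nat.totient Q) / Real.log (val k m) := by
    intro m hm
    unfold G J at hm
    simp only [Finset.mem_filter, Finset.mem_Icc] at hm
    obtain ⟨⟨⟨m1, m2⟩, m3⟩, m4⟩ := hm
    have h2 := val_ge m3
    have h2' : (2 : ℝ) ≤ (val k m : ℕ) := by exact_mod_cast h2
    have h3 : val k m ≤ x ^ (C + 4) := by
      have h4 := val_eq m3
      have h5 := abs_le_pow C D hD k x (by omega) hk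
      have h6 : k ≤ (x : ℤ) ^ (C + 3) := (le_abs_self k).trans h5
      have h7 : (m : ℤ) ^ 3 ≤ (x : ℤ) ^ (C + 3) := by
        calc (m : ℤ) ^ 3 ≤ (x : ℤ) ^ 3 := pow_le_pow_left₀ (by positivity) (by exact_mod_cast m2) 3
          _ ≤ _ := pow_le_pow_right₀ (by exact_mod_cast (show 1 ≤ x by omega)) (by omega)
      have h8 : (x : ℤ) ^ (C + 4) = x * (x : ℤ) ^ (C + 3) := by ring
      have h9 : (2 : ℤ) * (x : ℤ) ^ (C + 3) ≤ x * (x : ℤ) ^ (C + 3) :=
        mul_le_mul_of_nonneg_right (by omega) (by positivity)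
      have h10 : ((val k m : ℕ) : ℤ) ≤ (x : ℤ) ^ (C + 4) := by
        rw [h4, h8]
        linarith
      exact_mod_cast h10
    have h4 : Real.log (val k m) ≤ (C + 4) * Real.log x := by
      have h5 : Real.log (val k m) ≤ Real.log ((x : ℝ) ^ (C + 4)) := by
        apply Real.log_le_log (by linarith)
        exact_mod_cast h3
      rw [Real.log_pow] at h5
      push_cast at h5
      exact h5
    have h5 : 0 < Real.log (val k m) := Real.log_pos (by linarith)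
    exact div_le_div₀ (by linarith) hc h5 h4
  have h2 := Finset.card_nsmul_le_sum _ _ _ h1
  refine le_trans ?_ h2
  rw [nsmul_eq_mul]
  have h3 := G_card C D Q hQ hD x hx k hk
  have h4 : (x : ℝ) / (2 * Q * ((C + 4) * Real.log x)) = (x : ℝ) / (2 * Q) * (1 / ((C + 4) * Real.log x)) := by
    rw [div_mul_div_comm, mul_one]
  rw [h4]
  exact mul_le_mul_of_nonneg_right h3 (by positivity)

/-- the profile and the main term -/
lemma E_near (Q : ℕ) (hQ : 0 < Q) : ∃ K : ℝ, 0 ≤ K ∧ ∀ (k : ℤ) (x : ℕ),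
    |∑ m ∈ J k x, rhoW Q (val k m) - E Q k x| ≤ K := by
  classical
  have hc := cQ_ge Q hQ
  set c : ℝ := (Q : ℝ) / Nat.totient Q with hcdef
  have hl2 : 0 < Real.log 2 := Real.log_pos (by norm_num)
  refine ⟨(⌈Real.exp c⌉₊ : ℝ) * (c / Real.log 2), by positivity, fun k x => ?_⟩
  have h1 : ∑ m ∈ J k x, rhoW Q (val k m) = ∑ m ∈ G Q k x, min 1 (c / Real.log (val k m)) := by
    unfold G
    rw [Finset.sum_filter]
    refine Finset.sum_congr rfl fun m _ => ?_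
    unfold rhoW
    rfl
  rw [h1, E_eq, ← Finset.sum_sub_distrib]
  have hmem : ∀ m ∈ G Q k x, 2 ≤ (m : ℤ) ^ 3 + k := by
    intro m hm
    unfold G J at hm
    simp only [Finset.mem_filter] at hm
    exact hm.1.2
  have h2 : ∀ m ∈ G Q k x, |min 1 (c / Real.log (val k m)) - c / Real.log (val k m)| ≤
      if val k m < ⌈Real.exp c⌉₊ then c / Real.log 2 else 0 := by
    intro m hm
    have h3 := val_ge (hmem m hm)
    have h3' : (2 : ℝ) ≤ (val k m : ℕ) := by exact_mod_cast h3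
    have h4 : Real.log 2 ≤ Real.log (val k m) := Real.log_le_log (by norm_num) h3'
    have h5 : 0 < Real.log (val k m) := by linarith
    have h6 : 0 < c / Real.log (val k m) := by positivity
    have h7 : c / Real.log (val k m) ≤ c / Real.log 2 := by gcongr
    split_ifs with h
    · rcases le_total 1 (c / Real.log (val k m)) with h8 | h8
      · rw [min_eq_left h8, abs_sub_comm, abs_of_nonneg (by linarith)]
        linarith
      · rw [min_eq_right h8, sub_self, abs_zero]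
        positivity
    · push Not at h
      have h8 : Real.exp c ≤ (val k m : ℕ) := (Nat.le_ceil _).trans (by exact_mod_cast h)
      have h9 : c ≤ Real.log (val k m) := by
        rw [Real.le_log_iff_exp_le (by linarith)]
        exact h8
      rw [min_eq_right ((div_le_one h5).2 h9), sub_self, abs_zero]
  refine (Finset.abs_sum_le_sum_abs _ _).trans ((Finset.sum_le_sum h2).trans ?_)
  rw [← Finset.sum_filter, Finset.sum_const, nsmul_eq_mul]
  refine mul_le_mul_of_nonneg_right ?_ (by positivity)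
  have h3 : ((G Q k x).filter (fun m => val k m < ⌈Real.exp c⌉₊)).card ≤ (Finset.range ⌈Real.exp c⌉₊).card := by
    apply Finset.card_le_card_of_injOn (val k)
    · intro m hm
      rw [Finset.mem_coe, Finset.mem_filter] at hm
      rw [Finset.mem_coe, Finset.mem_range]
      exact hm.2
    · intro m hm m' hm' he
      rw [Finset.mem_coe, Finset.mem_filter] at hm hm'
      exact val_inj (hmem m hm.1) (hmem m' hm'.1) he
  rw [Finset.card_range] at h3
  exact_mod_cast h3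

/-- coding of the integers -/
def dec (j : ℕ) : ℤ := if j % 2 = 0 then ((j / 2 : ℕ) : ℤ) else -((j / 2 : ℕ) : ℤ)

/-- coding of the integers -/
def enc (k : ℤ) : ℕ := if 0 ≤ k then 2 * k.toNat else 2 * (-k).toNat + 1

lemma dec_enc (k : ℤ) : dec (enc k) = k := by
  unfold dec enc
  split_ifs <;> omega

lemma le_dec (j : ℕ) : (j : ℤ) ≤ 2 * |dec j| + 1 := by
  unfold dec
  split_ifs
  · rw [abs_of_nonneg (by positivity)]
    omega
  · rw [abs_neg, abs_of_nonneg (by positivity)]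
    omega

/-- the families -/
def Jn (n : ℕ) : Finset ℕ := J (dec n.unpair.2) n.unpair.1

/-- the one element tuples -/
def Tn (n m : ℕ) : Finset ℕ := {val (dec n.unpair.2) m}

/-- the admissible indices -/
def Sn (C D : ℕ) : Set ℕ := {n | Adm C D (dec n.unpair.2) n.unpair.1}

lemma Tn_mult (n t : ℕ) : ((Jn n).filter (fun j => t ∈ Tn n j)).card ≤ 1 := by
  refine Finset.card_le_one.2 fun a ha b hb => ?_
  unfold Tn Jn J at ha hb
  simp only [Finset.mem_filter, Finset.mem_singleton] at ha hb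
  exact val_inj ha.1.2 hb.1.2 (ha.2.symm.trans hb.2)

lemma snd_le (C D : ℕ) (hD : 1 ≤ D) (n : ℕ) (hn : n ∈ Sn C D) (hx : 1 ≤ n.unpair.1) :
    n.unpair.2 ≤ 2 * n.unpair.1 ^ (C + 3) + 1 := by
  have h1 := le_dec n.unpair.2
  have h2 := abs_le_pow C D hD _ _ hx hn
  have h3 : ((n.unpair.2 : ℕ) : ℤ) ≤ 2 * ((n.unpair.1 : ℕ) : ℤ) ^ (C + 3) + 1 := by linarith
  exact_mod_cast h3

lemma fst_tendsto (C D : ℕ) (hD : 1 ≤ D) :
    Tendsto (fun n : ℕ => n.unpair.1) (atTop ⊓ 𝓟 (Sn C D)) atTop := by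
  rw [tendsto_atTop]
  intro B
  rw [eventually_inf_principal]
  filter_upwards [eventually_ge_atTop ((2 * B ^ (C + 3) + B + 2) ^ 2)] with n hn hS
  by_contra hcon
  push Not at hcon
  have h2 : max n.unpair.1 n.unpair.2 + 1 ≤ 2 * B ^ (C + 3) + B + 2 := by
    have h3 : n.unpair.2 ≤ 2 * B ^ (C + 3) + 1 := by
      rcases Nat.eq_zero_or_pos n.unpair.1 with h0 | h0
      · have hS' : Adm C D (dec n.unpair.2) n.unpair.1 := hS
        rw [h0] at hS'
        have h4 := le_dec n.unpair.2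
        have h5 : |dec n.unpair.2| ≤ 1 := by
          rcases le_or_gt 0 (dec n.unpair.2) with h6 | h6
          · rw [abs_of_nonneg h6]
            refine (hS'.1 h6).trans ?_
            rcases Nat.eq_zero_or_pos C with h7 | h7
            · rw [h7, pow_zero]
            · rw [Nat.cast_zero, zero_pow (by omega)]
              norm_num
          · exfalso
            have h7 := hS'.2 h6
            rw [Nat.cast_zero, zero_pow (by omega)] at h7
            have h8 : 0 < (-(dec n.unpair.2)) ^ D := pow_pos (by omega) D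
            omega
        have hB : 1 ≤ B := by omega
        have h6 : 1 ≤ B ^ (C + 3) := Nat.one_le_pow _ _ hB
        omega
      · have h4 := snd_le C D hD n hS h0
        have h5 : n.unpair.1 ^ (C + 3) ≤ B ^ (C + 3) := Nat.pow_le_pow_left hcon.le _
        omega
    have h4 : max n.unpair.1 n.unpair.2 ≤ 2 * B ^ (C + 3) + B + 1 := max_le (by omega) (by omega)
    omega
  have h3 := Nat.pair_lt_max_add_one_sq n.unpair.1 n.unpair.2
  rw [Nat.pair_unpair] at h3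
  have h4 := Nat.pow_le_pow_left h2 2
  omega

lemma log_le (C D : ℕ) (hD : 1 ≤ D) (n : ℕ) (hS : n ∈ Sn C D) (hx : 3 ≤ n.unpair.1) :
    Real.log n ≤ (2 * C + 10) * Real.log (n.unpair.1 : ℕ) := by
  have h0 := snd_le C D hD n hS (by omega)
  set x := n.unpair.1
  have h3 := Nat.pair_lt_max_add_one_sq n.unpair.1 n.unpair.2
  rw [Nat.pair_unpair] at h3
  have h4 : max n.unpair.1 n.unpair.2 + 1 ≤ x ^ (C + 5) := by
    have h5 : x ^ (C + 5) = x ^ 2 * x ^ (C + 3) := by ring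
    have h6 : x ≤ x ^ (C + 3) := Nat.le_self_pow (by omega) x
    have h7 : 9 ≤ x ^ 2 := by nlinarith
    have h8 : 1 ≤ x ^ (C + 3) := Nat.one_le_pow _ _ (by omega)
    have h9 : max n.unpair.1 n.unpair.2 ≤ 2 * x ^ (C + 3) + 1 := max_le (by omega) h0
    rw [h5]
    nlinarith
  have h5 : n ≤ x ^ (2 * C + 10) := by
    have h6 := Nat.pow_le_pow_left h4 2
    have h7 : (x ^ (C + 5)) ^ 2 = x ^ (2 * C + 10) := by
      rw [← pow_mul]
      ring_nf
    omega
  rcases Nat.eq_zero_or_pos n with h0 | h0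
  · rw [h0]
    simp only [Nat.cast_zero, Real.log_zero]
    have : 0 ≤ Real.log (x : ℕ) := Real.log_natCast_nonneg _
    positivity
  · have h6 : Real.log n ≤ Real.log ((x : ℝ) ^ (2 * C + 10)) := by
      apply Real.log_le_log (by exact_mod_cast h0)
      exact_mod_cast h5
    rw [Real.log_pow] at h6
    push_cast at h6
    exact h6

/-- the main term is large -/
lemma big (Q C : ℕ) (hQ : 0 < Q) (B : ℝ) :
    ∀ᶠ x : ℕ in atTop, B ≤ (x : ℝ) / (2 * Q * ((C + 4) * Real.log x)) := by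
  have hQ' : (0 : ℝ) < Q := by exact_mod_cast hQ
  have h1 := pow_log (1 / (2 * Q * (C + 4))) 1 (by positivity) one_pos 1
  filter_upwards [h1.eventually_ge_atTop B] with x hx
  refine hx.trans (le_of_eq ?_)
  rw [Real.rpow_one, pow_one]
  by_cases hl : Real.log x = 0
  · simp [hl]
  · field_simp

variable {Ω : Type} {m0 : MeasurableSpace Ω} {μ : Measure Ω} [IsProbabilityMeasure μ]
  {ℱ : Filtration ℕ m0} {A : ℕ → Set Ω}

/-- the uniform law -/
theorem uniform_law (hA : ∀ n, MeasurableSet[ℱ n] (A n)) (Q : ℕ) (hQ : 0 < Q)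
    (hcop : ∀ n, ¬ Nat.Coprime n Q → A n = ∅)
    (hd : ∀ᵐ ω ∂μ, Tendsto (fun n : ℕ => dens μ ℱ A n ω * Real.log n)
      (atTop ⊓ 𝓟 {n : ℕ | Nat.Coprime (n + 1) Q}) (𝓝 ((Q : ℝ) / Nat.totient Q)))
    (C D : ℕ) (hD : 1 ≤ D) :
    ∀ᵐ ω ∂μ, ∀ ε : ℝ, 0 < ε → ∃ x₀ : ℕ, ∀ x ≥ x₀, ∀ k : ℤ, Adm C D k x →
      |((hits {n | ω ∈ A n} k x).ncard : ℝ) - E Q k x| ≤ ε * E Q k x := by
  classical
  obtain ⟨K, hK0, hK⟩ := E_near Q hQ
  have hd' := dens_profile (μ := μ) hA Q hQ hcop hd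
  have hfst := fst_tendsto C D hD
  have hQ' : (0 : ℝ) < Q := by exact_mod_cast hQ
  set X₀ := (8 * Q) ^ (3 * D) * 2 ^ D with hX₀
  have hsum : ∀ n, ∑ j ∈ Jn n, ∏ t ∈ Tn n j, rhoW Q t =
      ∑ m ∈ J (dec n.unpair.2) n.unpair.1, rhoW Q (val (dec n.unpair.2) m) := by
    intro n
    unfold Jn Tn
    refine Finset.sum_congr rfl fun m _ => ?_
    rw [Finset.prod_singleton]
  have hE : Tendsto (fun n => (∑ j ∈ Jn n, ∏ t ∈ Tn n j, rhoW Q t) / ((1 : ℕ) : ℝ) / Real.log n)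
      (atTop ⊓ 𝓟 (Sn C D)) atTop := by
    have h1 := (pow_log (1 / (4 * Q * (C + 4) * (2 * C + 10))) 1 (by positivity) one_pos 2).comp hfst
    refine tendsto_atTop_mono' _ ?_ h1
    have h2 : ∀ᶠ n in atTop ⊓ 𝓟 (Sn C D), n ∈ Sn C D :=
      eventually_inf_principal.2 (Eventually.of_forall fun n hn => hn)
    filter_upwards [h2, hfst.eventually (big Q C hQ (2 * K)), hfst.eventually_ge_atTop (max 3 X₀),
      (eventually_gt_atTop 1).filter_mono inf_le_left] with n g1 g2 g3 g4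
    have g3' : 3 ≤ n.unpair.1 := (le_max_left _ _).trans g3
    have g3'' : X₀ ≤ n.unpair.1 := (le_max_right _ _).trans g3
    have hx' : (3 : ℝ) ≤ (n.unpair.1 : ℕ) := by exact_mod_cast g3'
    have hL : 0 < Real.log (n.unpair.1 : ℕ) := Real.log_pos (by linarith)
    have hn : 0 < Real.log n := Real.log_pos (by exact_mod_cast g4)
    have k1 := abs_le.1 (hK (dec n.unpair.2) n.unpair.1)
    have k2 := E_ge C D Q hQ hD n.unpair.1 g3'' _ g1
    have k3 := log_le C D hD n g1 g3'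
    rw [hsum n]
    simp only [Function.comp_apply]
    rw [Nat.cast_one, div_one, Real.rpow_one]
    set x : ℝ := ((n.unpair.1 : ℕ) : ℝ)
    set P := ∑ m ∈ J (dec n.unpair.2) n.unpair.1, rhoW Q (val (dec n.unpair.2) m)
    have k4 : 1 / 2 * (x / (2 * Q * ((C + 4) * Real.log x))) ≤ P := by linarith
    have k5 : 1 / (4 * Q * (C + 4) * (2 * C + 10)) * x / Real.log x ^ 2 =
        (1 / 2 * (x / (2 * Q * ((C + 4) * Real.log x)))) / ((2 * C + 10) * Real.log x) := by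
      field_simp
      ring
    rw [k5]
    have hx0 : 0 < x := by linarith
    have k6 : 0 < 1 / 2 * (x / (2 * Q * ((C + 4) * Real.log x))) := by positivity
    exact div_le_div₀ (by linarith) k4 hn k3
  have hfam := families (μ := μ) hA (rhoW Q) (fun n => ⟨rhoW_nonneg Q n, rhoW_le Q n⟩) hd' 1 Jn Tn (fun _ => 1)
    (fun n j _ => Finset.card_singleton _)
    (fun n j hj => by
      unfold Tn
      rw [Finset.mem_singleton]
      unfold Jn J at hj
      have h1 := (Finset.mem_filter.1 hj).2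
      have h2 := val_ge h1
      omega)
    Tn_mult (atTop ⊓ 𝓟 (Sn C D)) inf_le_left hE
  filter_upwards [hfam] with ω hω ε hε
  set η : ℝ := min (ε / 3) 1 with hη
  have hη0 : 0 < η := by rw [hη]; positivity
  have hη1 : η ≤ 1 := min_le_right _ _
  have hηε : 3 * η ≤ ε := by
    have : η ≤ ε / 3 := min_le_left _ _
    linarith
  obtain ⟨N, hN⟩ := eventually_atTop.1 (eventually_inf_principal.1 (hω η hη0))
  obtain ⟨N', hN'⟩ := eventually_atTop.1 (big Q C hQ (K / η))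
  refine ⟨max (max N N') (max 3 X₀), fun x hx k hk => ?_⟩
  have hx1 : N ≤ x := (le_max_left N N').trans ((le_max_left _ _).trans hx)
  have hx2 : N' ≤ x := (le_max_right N N').trans ((le_max_left _ _).trans hx)
  have hx4 : X₀ ≤ x := (le_max_right _ _).trans ((le_max_right _ _).trans hx)
  have hmem : Nat.pair x (enc k) ∈ Sn C D := by
    unfold Sn
    simp only [Set.mem_ofPred_eq, Nat.unpair_pair, dec_enc]
    exact hk
  have h1 := hN (Nat.pair x (enc k)) (hx1.trans (Nat.left_le_pair x (enc k))) hmem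
  rw [Mx_top (rhoW Q) (Jn (Nat.pair x (enc k))) (Tn (Nat.pair x (enc k))) (k := 1)
    (fun j _ => Finset.card_singleton _), hsum _] at h1
  have h2 : (((Jn (Nat.pair x (enc k))).filter (fun j => ∀ t ∈ Tn (Nat.pair x (enc k)) j, ω ∈ A t)).card : ℝ) =
      ((hits {n | ω ∈ A n} k x).ncard : ℝ) := by
    rw [hits_eq, Set.ncard_coe_finset]
    unfold Jn Tn
    simp only [Nat.unpair_pair, dec_enc, Set.mem_ofPred_eq]
  rw [h2] at h1
  simp only [Nat.unpair_pair, dec_enc] at h1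
  have h3 := hK k x
  have h4 := E_ge C D Q hQ hD x hx4 k hk
  have h5 := hN' x hx2
  set R : ℝ := ((hits {n | ω ∈ A n} k x).ncard : ℝ)
  set M := E Q k x
  set P := ∑ m ∈ J k x, rhoW Q (val k m)
  have h6 : K ≤ η * M := by
    have h7 : K / η ≤ M := h5.trans h4
    rw [div_le_iff₀ hη0] at h7
    linarith
  have h7 := h3.trans h6
  have k1 := abs_le.1 h1
  have k2 := abs_le.1 h7
  have hM0 : 0 ≤ η * M := hK0.trans h6
  have k3 : η * P ≤ η * ((1 + η) * M) := mul_le_mul_of_nonneg_left (by linarith) hη0.le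
  have k4 : η * (η * M) ≤ 1 * (η * M) := mul_le_mul_of_nonneg_right hη1 hM0
  have hM1 : 0 ≤ M := by
    by_contra hcon
    push Not at hcon
    nlinarith
  have k5 : 3 * η * M ≤ ε * M := mul_le_mul_of_nonneg_right hηε hM1
  rw [abs_le]
  constructor <;> nlinarith

/-- positivity of the lower bound -/
lemma lower_pos (Q C : ℕ) (hQ : 0 < Q) (x : ℕ) (hx : 3 ≤ x) :
    0 < (x : ℝ) / (4 * Q * ((C + 4) * Real.log x)) := by
  have hQ' : (0 : ℝ) < Q := by exact_mod_cast hQ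
  have hx' : (3 : ℝ) ≤ x := by exact_mod_cast hx
  have hL : 0 < Real.log x := Real.log_pos (by linarith)
  positivity

/-- an element from the lower bound -/
lemma exists_of_lower (Q C : ℕ) (hQ : 0 < Q) (x : ℕ) (hx : 3 ≤ x) (S : Set ℕ) (k : ℤ)
    (h : (x : ℝ) / (4 * Q * ((C + 4) * Real.log x)) ≤ (hits S k x).ncard) :
    ∃ m : ℕ, 1 ≤ m ∧ m ≤ x ∧ ∃ a ∈ S, 2 ≤ a ∧ (a : ℤ) = (m : ℤ) ^ 3 + k := by
  have h1 : (0 : ℝ) < (hits S k x).ncard := lt_of_lt_of_le (lower_pos Q C hQ x hx) h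
  have h2 : 0 < (hits S k x).ncard := by exact_mod_cast h1
  obtain ⟨m, hm⟩ := Set.nonempty_of_ncard_ne_zero h2.ne'
  exact ⟨m, hm⟩

lemma adm_eventually (k : ℤ) : ∀ x : ℕ, k.natAbs ≤ x → 1 ≤ x → Adm 1 1 k x := by
  intro x hx h1
  have h2 : (1 : ℤ) ≤ x := by exact_mod_cast h1
  refine ⟨fun h => ?_, fun h => ?_⟩
  · rw [pow_one]
    omega
  · rw [pow_one]
    have h3 : (x : ℤ) ≤ (x : ℤ) ^ (3 * 1 - 1) := by
      norm_num
      nlinarith
    omega

/-- the infinitely many chosen values -/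
lemma infinite_of_lower (Q : ℕ) (hQ : 0 < Q) (S : Set ℕ) (k : ℤ) (x₀ : ℕ)
    (h : ∀ x ≥ x₀, (x : ℝ) / (4 * Q * ((1 + 4) * Real.log x)) ≤ (hits S k x).ncard) :
    {a : ℕ | a ∈ S ∧ ∃ m : ℤ, (a : ℤ) = m ^ 3 + k}.Infinite := by
  classical
  intro hfin
  obtain ⟨x, hx⟩ := ((big Q 1 hQ (2 * (hfin.toFinset.card + 1))).and (eventually_ge_atTop x₀)).exists
  have h1 := h x hx.2
  have h2 : (hits S k x).ncard ≤ hfin.toFinset.card := by
    rw [hits_eq, Set.ncard_coe_finset]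
    apply Finset.card_le_card_of_injOn (val k)
    · intro m hm
      unfold J at hm
      simp only [Finset.coe_filter, Finset.mem_filter, Finset.mem_Icc, Finset.mem_singleton, forall_eq,
        Set.mem_ofPred_eq] at hm
      rw [Finset.mem_coe, Set.Finite.mem_toFinset]
      exact ⟨hm.2, (m : ℤ), val_eq hm.1.2⟩
    · intro m hm m' hm' he
      unfold J at hm hm'
      simp only [Finset.coe_filter, Finset.mem_filter, Finset.mem_Icc, Finset.mem_singleton, forall_eq,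
        Set.mem_ofPred_eq] at hm hm'
      exact val_inj hm.1.2 hm'.1.2 he
  have h3 : ((hits S k x).ncard : ℝ) ≤ hfin.toFinset.card := by exact_mod_cast h2
  have h4 := hx.1
  push_cast at h4
  have h5 : (x : ℝ) / (4 * Q * ((1 + 4) * Real.log x)) = 1 / 2 * ((x : ℝ) / (2 * Q * ((1 + 4) * Real.log x))) := by
    have : (4 : ℝ) * Q * ((1 + 4) * Real.log x) = 2 * (2 * Q * ((1 + 4) * Real.log x)) := by ring
    rw [this, div_mul_eq_div_div_swap]
    ring
  linarith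

/-- powers of large integers -/
lemma rpow_floor (a b : ℝ) (h0 : 0 < a) (hab : a < b) (B : ℕ) :
    ∃ K₀ : ℕ, 3 ≤ K₀ ∧ ∀ K ≥ K₀, (K : ℝ) ^ a ≤ (⌊(K : ℝ) ^ b⌋₊ : ℝ) ∧ B ≤ ⌊(K : ℝ) ^ b⌋₊ := by
  have t1 : Tendsto (fun n : ℕ => (n : ℝ) ^ (b - a)) atTop atTop :=
    (tendsto_rpow_atTop (by linarith)).comp tendsto_natCast_atTop_atTop
  have t2 : Tendsto (fun n : ℕ => (n : ℝ) ^ a) atTop atTop :=
    (tendsto_rpow_atTop h0).comp tendsto_natCast_atTop_atTop
  obtain ⟨N, hN⟩ := eventually_atTop.1 ((t1.eventually_ge_atTop 2).and ((t2.eventually_ge_atTop ((B : ℝ) + 1)).and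
    (eventually_ge_atTop 3)))
  refine ⟨max N 3, le_max_right _ _, fun K hK => ?_⟩
  obtain ⟨g1, g2, g3⟩ := hN K ((le_max_left _ _).trans hK)
  have hK0 : (0 : ℝ) < K := by
    have : (3 : ℝ) ≤ K := by exact_mod_cast g3
    linarith
  have h1 : (K : ℝ) ^ b = (K : ℝ) ^ a * (K : ℝ) ^ (b - a) := by
    rw [← Real.rpow_add hK0]
    congr 1
    ring
  have h2 := Nat.lt_floor_add_one ((K : ℝ) ^ b)
  have hB : (0 : ℝ) ≤ B := Nat.cast_nonneg _
  have h3 : (K : ℝ) ^ a * 2 ≤ (K : ℝ) ^ b := by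
    rw [h1]
    exact mul_le_mul_of_nonneg_left g1 (by linarith)
  have h4 : (K : ℝ) ^ a ≤ (⌊(K : ℝ) ^ b⌋₊ : ℝ) := by linarith
  refine ⟨h4, ?_⟩
  have h5 : (B : ℝ) ≤ (⌊(K : ℝ) ^ b⌋₊ : ℝ) := by linarith
  exact_mod_cast h5

end Pool.Agent.Results.MP_4d57ea_nt.SievedModels

open Pool.Agent.Results.MP_4d57ea_nt.SievedModels Pool.Agent.N909.TF

/-- Let `A n` be the event that `n` belongs to a random set adapted to a filtration `ℱ`, let
`Q ≥ 1`, let no integer which is not coprime to `Q` be chosen, and let the conditional probability of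
`A (n + 1)` given `ℱ n`, times `log n`, tend to `Q / φ(Q)` along the `n` with `n + 1` coprime to `Q`,
almost surely.  Let `R_k(x)` be the number of the `m`, `1 ≤ m ≤ x`, for which `m³ + k` is at least
`2` and chosen, and `E_k(x)` the sum of `(Q / φ(Q)) / log (m³ + k)` over those for which it is at
least `2` and coprime to `Q`.
(1) Almost surely, for all `C`, `D ≥ 1` and `ε > 0`, for all large `x` and ALL integers `k` with
`- x ^ (3 - 1 / D) ≤ k ≤ x ^ C`, `|R_k(x) - E_k(x)| ≤ ε E_k(x)`.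
(2) Almost surely, for all `C` and `D ≥ 1`, for all large `x` and all these `k`,
`R_k(x) ≥ x / (4 Q (C + 4) log x)`.
(3) Almost surely, for every integer `k`, `R_k(x) / E_k(x) → 1`, and infinitely many chosen integers
are of the form `m³ + k`.
(4) Almost surely, for every `δ > 0` and all large `K` there is a chosen `m³ + K` with
`1 ≤ m ≤ K ^ δ` and a chosen `m³ - K` with `1 ≤ m ≤ K ^ (1 / 3 + δ)`. -/
theorem Pool.Agent.Results.MP_4d57ea_nt.SievedModels.result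
    {Ω : Type} [mΩ : MeasurableSpace Ω] (μ : Measure Ω) [IsProbabilityMeasure μ]
    (ℱ : Filtration ℕ mΩ) (A : ℕ → Set Ω) (hA : ∀ n, MeasurableSet[ℱ n] (A n))
    (Q : ℕ) (hQ : 0 < Q) (hcop : ∀ n, ¬ Nat.Coprime n Q → A n = ∅)
    (hd : ∀ᵐ ω ∂μ, Tendsto (fun n : ℕ =>
      (μ[(A (n + 1)).indicator (fun _ => (1 : ℝ)) | ℱ n]) ω * Real.log n)
      (atTop ⊓ 𝓟 {n : ℕ | Nat.Coprime (n + 1) Q}) (𝓝 ((Q : ℝ) / Nat.totient Q))) :
    (∀ᵐ ω ∂μ, ∀ C D : ℕ, 1 ≤ D → ∀ ε : ℝ, 0 < ε → ∃ x₀ : ℕ, ∀ x ≥ x₀, ∀ k : ℤ, Adm C D k x →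
      |((hits {n | ω ∈ A n} k x).ncard : ℝ) - E Q k x| ≤ ε * E Q k x) ∧
    (∀ᵐ ω ∂μ, ∀ C D : ℕ, 1 ≤ D → ∃ x₀ : ℕ, ∀ x ≥ x₀, ∀ k : ℤ, Adm C D k x →
      (x : ℝ) / (4 * Q * ((C + 4) * Real.log x)) ≤ (hits {n | ω ∈ A n} k x).ncard) ∧
    (∀ᵐ ω ∂μ, ∀ k : ℤ,
      Tendsto (fun x : ℕ => ((hits {n | ω ∈ A n} k x).ncard : ℝ) / E Q k x) atTop (𝓝 1) ∧
      {a : ℕ | ω ∈ A a ∧ ∃ m : ℤ, (a : ℤ) = m ^ 3 + k}.Infinite) ∧
    (∀ᵐ ω ∂μ, ∀ δ : ℝ, 0 < δ → ∃ K₀ : ℕ, ∀ K ≥ K₀,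
      (∃ m : ℕ, 1 ≤ m ∧ (m : ℝ) ≤ (K : ℝ) ^ δ ∧ ∃ a : ℕ, ω ∈ A a ∧ (a : ℤ) = (m : ℤ) ^ 3 + K) ∧
      (∃ m : ℕ, 1 ≤ m ∧ (m : ℝ) ≤ (K : ℝ) ^ (1 / 3 + δ) ∧
        ∃ a : ℕ, ω ∈ A a ∧ (a : ℤ) = (m : ℤ) ^ 3 - K)) := by
  classical
  have hQ' : (0 : ℝ) < Q := by exact_mod_cast hQ
  have h1 : ∀ᵐ ω ∂μ, ∀ C D : ℕ, 1 ≤ D → ∀ ε : ℝ, 0 < ε → ∃ x₀ : ℕ, ∀ x ≥ x₀, ∀ k : ℤ, Adm C D k x →
      |((hits {n | ω ∈ A n} k x).ncard : ℝ) - E Q k x| ≤ ε * E Q k x := by
    refine ae_all_iff.2 fun C => ae_all_iff.2 fun D => ?_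
    by_cases hD : 1 ≤ D
    · filter_upwards [uniform_law (μ := μ) hA Q hQ hcop hd C D hD] with ω hω _
      exact hω
    · exact Eventually.of_forall fun ω h => absurd h hD
  have h2 : ∀ᵐ ω ∂μ, ∀ C D : ℕ, 1 ≤ D → ∃ x₀ : ℕ, ∀ x ≥ x₀, ∀ k : ℤ, Adm C D k x →
      (x : ℝ) / (4 * Q * ((C + 4) * Real.log x)) ≤ (hits {n | ω ∈ A n} k x).ncard := by
    filter_upwards [h1] with ω hω C D hD
    obtain ⟨x₀, hx₀⟩ := hω C D hD (1 / 2) (by norm_num)
    refine ⟨max x₀ ((8 * Q) ^ (3 * D) * 2 ^ D), fun x hx k hk => ?_⟩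
    have g1 := (abs_le.1 (hx₀ x ((le_max_left _ _).trans hx) k hk)).1
    have g2 := E_ge C D Q hQ hD x ((le_max_right _ _).trans hx) k hk
    have g3 : (x : ℝ) / (4 * Q * ((C + 4) * Real.log x)) = 1 / 2 * ((x : ℝ) / (2 * Q * ((C + 4) * Real.log x))) := by
      have : (4 : ℝ) * Q * ((C + 4) * Real.log x) = 2 * (2 * Q * ((C + 4) * Real.log x)) := by ring
      rw [this, div_mul_eq_div_div_swap]
      ring
    rw [g3]
    linarith
  refine ⟨h1, h2, ?_, ?_⟩
  · filter_upwards [h1, h2] with ω hω hω2 k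
    constructor
    · rw [Metric.tendsto_atTop]
      intro ε hε
      obtain ⟨x₀, hx₀⟩ := hω 1 1 le_rfl (ε / 2) (by positivity)
      refine ⟨max (max x₀ k.natAbs) (max 3 ((8 * Q) ^ (3 * 1) * 2 ^ 1)), fun x hx => ?_⟩
      have e1 : x₀ ≤ x := (le_max_left _ _).trans ((le_max_left _ _).trans hx)
      have e2 : k.natAbs ≤ x := (le_max_right _ _).trans ((le_max_left _ _).trans hx)
      have e3 : 3 ≤ x := (le_max_left _ _).trans ((le_max_right _ _).trans hx)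
      have e4 : (8 * Q) ^ (3 * 1) * 2 ^ 1 ≤ x := (le_max_right _ _).trans ((le_max_right _ _).trans hx)
      have e5 := adm_eventually k x e2 (by omega)
      have g1 := hx₀ x e1 k e5
      have g2 := E_ge 1 1 Q hQ le_rfl x e4 k e5
      have hx' : (3 : ℝ) ≤ x := by exact_mod_cast e3
      have hL : 0 < Real.log x := Real.log_pos (by linarith)
      have g3 : 0 < E Q k x := lt_of_lt_of_le (by positivity) g2
      rw [Real.dist_eq, div_sub_one g3.ne', abs_div, abs_of_pos g3, div_lt_iff₀ g3]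
      refine lt_of_le_of_lt g1 ?_
      exact mul_lt_mul_of_pos_right (by linarith) g3
    · obtain ⟨x₀, hx₀⟩ := hω2 1 1 le_rfl
      refine infinite_of_lower Q hQ {n | ω ∈ A n} k (max x₀ (max k.natAbs 1)) fun x hx => ?_
      have := hx₀ x ((le_max_left _ _).trans hx) k (adm_eventually k x
        ((le_max_left _ _).trans ((le_max_right _ _).trans hx))
        ((le_max_right _ _).trans ((le_max_right _ _).trans hx)))
      exact_mod_cast this
  · filter_upwards [h2] with ω hω δ hδ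
    obtain ⟨C, hC⟩ := exists_nat_ge (2 / δ)
    obtain ⟨D, hD⟩ := exists_nat_ge (1 / δ)
    obtain ⟨x₁, hx₁⟩ := hω C 1 le_rfl
    obtain ⟨x₂, hx₂⟩ := hω 0 (D + 1) (by omega)
    obtain ⟨K₁, hK₁3, hK₁⟩ := rpow_floor (δ / 2) δ (by positivity) (by linarith) (max x₁ 3)
    obtain ⟨K₂, hK₂3, hK₂⟩ := rpow_floor (1 / 3 + δ / 2) (1 / 3 + δ) (by positivity) (by linarith) (max x₂ 3)
    refine ⟨max K₁ K₂, fun K hK => ⟨?_, ?_⟩⟩
    · obtain ⟨g1, g2⟩ := hK₁ K ((le_max_left _ _).trans hK)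
      have hK3 : 3 ≤ K := hK₁3.trans ((le_max_left _ _).trans hK)
      have hK1 : (1 : ℝ) ≤ K := by exact_mod_cast (show 1 ≤ K by omega)
      have hK0 : (0 : ℝ) < K := by linarith
      set x := ⌊(K : ℝ) ^ δ⌋₊ with hxdef
      have g3 : K ≤ x ^ C := by
        have h5 : (K : ℝ) ≤ (x : ℝ) ^ C := by
          calc (K : ℝ) = (K : ℝ) ^ (1 : ℝ) := (Real.rpow_one _).symm
            _ ≤ (K : ℝ) ^ (δ / 2 * C) := by
                apply Real.rpow_le_rpow_of_exponent_le hK1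
                rw [div_le_iff₀ hδ] at hC
                linarith
            _ = ((K : ℝ) ^ (δ / 2)) ^ C := by rw [Real.rpow_mul hK0.le, Real.rpow_natCast]
            _ ≤ (x : ℝ) ^ C := pow_le_pow_left₀ (by positivity) g1 C
        exact_mod_cast h5
      have g4 : Adm C 1 (K : ℤ) x := ⟨fun _ => by exact_mod_cast g3, fun h => by omega⟩
      obtain ⟨m, m1, m2, a, m3, m4, m5⟩ := exists_of_lower Q C hQ x ((le_max_right _ _).trans g2) {n | ω ∈ A n}
        (K : ℤ) (hx₁ x ((le_max_left _ _).trans g2) K g4)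
      refine ⟨m, m1, ?_, a, m3, m5⟩
      exact le_trans (by exact_mod_cast m2) (Nat.floor_le (by positivity))
    · obtain ⟨g1, g2⟩ := hK₂ K ((le_max_right _ _).trans hK)
      have hK3 : 3 ≤ K := hK₂3.trans ((le_max_right _ _).trans hK)
      have hK1 : (1 : ℝ) ≤ K := by exact_mod_cast (show 1 ≤ K by omega)
      have hK0 : (0 : ℝ) < K := by linarith
      set x := ⌊(K : ℝ) ^ (1 / 3 + δ)⌋₊ with hxdef
      have g3 : K ^ (D + 1) ≤ x ^ (3 * (D + 1) - 1) := by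
        have h5 : (K : ℝ) ^ (D + 1) ≤ (x : ℝ) ^ (3 * (D + 1) - 1) := by
          calc (K : ℝ) ^ (D + 1) = (K : ℝ) ^ (((D + 1 : ℕ) : ℝ)) := (Real.rpow_natCast _ _).symm
            _ ≤ (K : ℝ) ^ ((1 / 3 + δ / 2) * ((3 * (D + 1) - 1 : ℕ) : ℝ)) := by
                apply Real.rpow_le_rpow_of_exponent_le hK1
                have e1 : 3 * (D + 1) - 1 = 3 * D + 2 := by omega
                rw [e1]
                push_cast
                rw [div_le_iff₀ hδ] at hD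
                nlinarith
            _ = ((K : ℝ) ^ (1 / 3 + δ / 2)) ^ (3 * (D + 1) - 1) := by rw [Real.rpow_mul hK0.le, Real.rpow_natCast]
            _ ≤ (x : ℝ) ^ (3 * (D + 1) - 1) := pow_le_pow_left₀ (by positivity) g1 _
        exact_mod_cast h5
      have g4 : Adm 0 (D + 1) (-(K : ℤ)) x := by
        refine ⟨fun h => by omega, fun _ => ?_⟩
        rw [neg_neg]
        exact_mod_cast g3
      obtain ⟨m, m1, m2, a, m3, m4, m5⟩ := exists_of_lower Q 0 hQ x ((le_max_right _ _).trans g2) {n | ω ∈ A n}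
        (-(K : ℤ)) (hx₂ x ((le_max_left _ _).trans g2) (-(K : ℤ)) g4)
      refine ⟨m, m1, ?_, a, m3, by rw [m5]; ring⟩
      exact le_trans (by exact_mod_cast m2) (Nat.floor_le (by positivity))
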