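import Pool.Agent.N688.ST.Poly
import Pool.Agent.N688.ST.Chain

/-!
# Strings of consecutive prime values in residue classes, with monotone gaps, for almost all polynomials `P + b x + c`

Let `P` be any integer polynomial of degree at most `D` (for instance `P = x³`, so that the polynomials are the
`x³ + b x + c`; the question of the page is about `b = 0`) and consider the polynomials `f = P + b x + c` with
integers `|b|, |c| ≤ N`, at very small arguments `n`, up to powers of `log N`.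

For all `D, l` and all squarefree `Q` there are `H` and `B` such that for all `E`, `C`, `ε > 0`, all `N ≥ N₀`, EVERY
finite set `W` of integers `0 ≤ J ≤ (log N)^C` and EVERY integer polynomial `P` of degree at most `D` with
coefficients at most `N (log N)^E`, all but at most `ε N²` of the pairs `(b, c)` of integers `|b|, |c| ≤ N` for which
`f = P + b x + c` has no fixed prime divisor have this property: for all but `ε |W|` of the windows `J ∈ W` and for
EVERY residue class `a` modulo `Q` with `f(a)` prime to `Q` there are integers `t_0 < ⋯ < t_(l+1)`, all congruent to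
`a` modulo `Q`, in the window `(J, J + (log N)^B]` and in an interval of length `H`, such that among the integers
`t_0 ≤ z ≤ t_(l+1)` exactly the `t_i` give primes `|f(z)|`. So the `l + 2` primes `|f(t_i)|` are CONSECUTIVE prime
values of `|f|`, and all their arguments are in the given class (the analogue of Shiu's theorem on strings of
congruent primes). Moreover the gaps increase and each of them divides the next, `t_j - t_i ∣ t_r - t_j` and
`t_j - t_i < t_r - t_j` for all `i < j < r`; and there are also such strings in which the gaps decrease and each of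
them is divisible by the next (the analogue of the answer of Banks, Freiberg and Turnage-Butterbaugh to the questions
of Erdős and Turán on monotone gaps between primes).

For `P = 0` these are strings of consecutive primes in almost all arithmetic progressions `c` modulo `b`, among the
first `(log b)^B` terms of the progression.

Method. (1) helper913's theorem on clusters of prime values (`MP_51e72e_nt.BoundedClusters`) for one class of
`(b, c)` modulo the small primes is used for a PRESCRIBED class of the positions (`Pool.Agent.N688.NC.class_thm3`);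
(2) the class of the position modulo `Q` is the given one, and for almost all pairs every shift outside a given set
`S` of multiples of `Q` is killed by two different small primes which kill none of the other shifts (`exists_i0kQ`,
`pairs4`, `mt4`, `polynomials4`); (3) `S` is chosen such that all differences divide the later (earlier) ones
(`Pool.Agent.N688.ST.Chain`).
-/

set_option autoImplicit false
set_option maxHeartbeats 4000000

open Filter Finset Topology

namespace Pool.Agent.Results.MP_4d57ea_nt.StringsOfPrimeValues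

/-- The polynomial `P + b x + c`. -/
noncomputable def pol (P : Polynomial ℤ) (b c : ℤ) : Polynomial ℤ :=
  P + Polynomial.C b * Polynomial.X + Polynomial.C c

/-- No prime divides all the values of `f`. -/
def NoFixedDivisor (f : Polynomial ℤ) : Prop :=
  ∀ p : ℕ, p.Prime → ∃ t : ℤ, ¬ (p : ℤ) ∣ f.eval t

/-- The integers `t_0 < ⋯ < t_(l+1)` are congruent to `a` modulo `Q` and lie in the interval `(u, v]` and in an
interval of length `H`, and for `t_0 ≤ z ≤ t_(l+1)` the number `|f z|` is a prime if and only if `z` is one of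
them. -/
def IsString {l : ℕ} (f : Polynomial ℤ) (Q H : ℕ) (a : ℤ) (u v : ℝ) (t : Fin (l + 2) → ℤ) : Prop :=
  StrictMono t ∧ (∀ i, (Q : ℤ) ∣ t i - a) ∧ (∀ i, u < t i ∧ (t i : ℝ) ≤ v) ∧
    t (Fin.last (l + 1)) ≤ t 0 + H ∧
    ∀ z : ℤ, t 0 ≤ z → z ≤ t (Fin.last (l + 1)) → ((f.eval z).natAbs.Prime ↔ ∃ i, z = t i)

/-- The gaps increase, and each of them divides the later ones. -/
def GapsIncrease {l : ℕ} (t : Fin (l + 2) → ℤ) : Prop :=
  ∀ i j r, i < j → j < r → t j - t i < t r - t j ∧ (t j - t i) ∣ (t r - t j)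

/-- The gaps decrease, and each of them is divisible by the later ones. -/
def GapsDecrease {l : ℕ} (t : Fin (l + 2) → ℤ) : Prop :=
  ∀ i j r, i < j → j < r → t r - t j < t j - t i ∧ (t r - t j) ∣ (t j - t i)

/-- For every class `a` modulo `Q` with `f a` prime to `Q` there are strings in the window of `J`. -/
def HasStrings (l : ℕ) (f : Polynomial ℤ) (Q H B N J : ℕ) : Prop :=
  ∀ a : ℤ, IsCoprime (f.eval a) (Q : ℤ) →
    (∃ t : Fin (l + 2) → ℤ, IsString f Q H a J (J + Real.log N ^ B) t ∧ GapsIncrease t) ∧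
    (∃ t : Fin (l + 2) → ℤ, IsString f Q H a J (J + Real.log N ^ B) t ∧ GapsDecrease t)

theorem dvd_of_sqf (Q : ℕ) (hQ : Squarefree Q) (x : ℤ) (h : ∀ p : ℕ, p.Prime → p ∣ Q → (p : ℤ) ∣ x) :
    (Q : ℤ) ∣ x := by
  rw [Int.natCast_dvd, ← Nat.prod_primeFactors_of_squarefree hQ]
  apply Finset.prod_primes_dvd
  · intro p hp
    exact (Nat.prime_of_mem_primeFactors hp).prime
  · intro p hp
    exact Int.natCast_dvd.1 (h p (Nat.prime_of_mem_primeFactors hp) (Nat.dvd_of_mem_primeFactors hp))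

/-- the string of the first primes of a cluster -/
theorem extract (f : Polynomial ℤ) (Q H l n : ℕ) (a : ℤ) (u v : ℝ) (S : Finset ℕ) (hS : S ⊆ range H)
    (hQ : Squarefree Q) (hSQ : ∀ h ∈ S, Q ∣ h) (hu : u < n) (hv : (n : ℝ) + H ≤ v)
    (hc : ∀ p : ℕ, p.Prime → p ∣ Q → (p : ℤ) ∣ (n : ℤ) - a)
    (hk : ∀ t ∈ range H \ S, ¬ (f.eval ((n : ℤ) + (t : ℤ))).natAbs.Prime)
    (hm : l + 2 ≤ (S.filter (fun h : ℕ => (f.eval ((n : ℤ) + (h : ℤ))).natAbs.Prime)).card) :
    ∃ y : Fin (l + 2) → ℕ, StrictMono y ∧ (∀ i, y i ∈ S) ∧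
      IsString f Q H a u v (fun i => (n : ℤ) + (y i : ℤ)) := by
  classical
  set S' := S.filter (fun h : ℕ => (f.eval ((n : ℤ) + (h : ℤ))).natAbs.Prime) with hS'
  set e := S'.orderEmbOfFin rfl with he
  have hmem : ∀ i, e i ∈ S' := fun i => S'.orderEmbOfFin_mem rfl i
  have hrange : ∀ t ∈ S', ∃ i, e i = t := by
    intro t ht
    have : t ∈ Set.range e := by
      rw [he, Finset.range_orderEmbOfFin]
      exact ht
    exact this
  have hltH : ∀ i, e i < H := fun i => Finset.mem_range.1 (hS (mem_filter.1 (hmem i)).1)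
  refine ⟨fun i => e (Fin.castLE hm i), ?_, fun i => (mem_filter.1 (hmem _)).1, ?_, ?_, ?_, ?_, ?_⟩
  · intro i j hij
    exact e.strictMono (by
      rw [Fin.lt_def] at hij ⊢
      exact hij)
  · intro i j hij
    have h3 : e (Fin.castLE hm i) < e (Fin.castLE hm j) := e.strictMono (by
      rw [Fin.lt_def] at hij ⊢
      exact hij)
    show (n : ℤ) + ((e (Fin.castLE hm i) : ℕ) : ℤ) < (n : ℤ) + ((e (Fin.castLE hm j) : ℕ) : ℤ)
    have h4 : ((e (Fin.castLE hm i) : ℕ) : ℤ) < ((e (Fin.castLE hm j) : ℕ) : ℤ) := by exact_mod_cast h3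
    linarith
  · intro i
    have h1 := dvd_of_sqf Q hQ _ hc
    have h2 : (Q : ℤ) ∣ ((e (Fin.castLE hm i) : ℕ) : ℤ) := by
      exact_mod_cast hSQ _ (mem_filter.1 (hmem (Fin.castLE hm i))).1
    have h3 := dvd_add h1 h2
    have e3 : (n : ℤ) + ((e (Fin.castLE hm i) : ℕ) : ℤ) - a =
        (n : ℤ) - a + ((e (Fin.castLE hm i) : ℕ) : ℤ) := by ring
    show (Q : ℤ) ∣ (n : ℤ) + ((e (Fin.castLE hm i) : ℕ) : ℤ) - a
    rw [e3]
    exact h3
  · intro i
    have h1 := hltH (Fin.castLE hm i)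
    have h2 : ((e (Fin.castLE hm i) : ℕ) : ℝ) < H := by exact_mod_cast h1
    have h3 : (0 : ℝ) ≤ ((e (Fin.castLE hm i) : ℕ) : ℝ) := Nat.cast_nonneg _
    constructor
    · push_cast
      linarith
    · push_cast
      linarith
  · have h1 := hltH (Fin.castLE hm (Fin.last (l + 1)))
    have h2 : ((e (Fin.castLE hm (Fin.last (l + 1))) : ℕ) : ℤ) < H := by exact_mod_cast h1
    have h3 : (0 : ℤ) ≤ ((e (Fin.castLE hm 0) : ℕ) : ℤ) := Int.natCast_nonneg _
    show (n : ℤ) + ((e (Fin.castLE hm (Fin.last (l + 1))) : ℕ) : ℤ) ≤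
      (n : ℤ) + ((e (Fin.castLE hm 0) : ℕ) : ℤ) + H
    linarith
  · intro z hz0 hz1
    constructor
    · intro hzp
      have hz0' : (n : ℤ) + ((e (Fin.castLE hm 0) : ℕ) : ℤ) ≤ z := hz0
      have hz1' : z ≤ (n : ℤ) + ((e (Fin.castLE hm (Fin.last (l + 1))) : ℕ) : ℤ) := hz1
      obtain ⟨t, rfl⟩ : ∃ t : ℕ, z = (n : ℤ) + t := ⟨(z - n).toNat, by
        rw [Int.toNat_of_nonneg]
        · ring
        · have : (0 : ℤ) ≤ ((e (Fin.castLE hm 0) : ℕ) : ℤ) := Int.natCast_nonneg _
          linarith⟩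
      have hz1n : t ≤ e (Fin.castLE hm (Fin.last (l + 1))) := by
        have : (t : ℤ) ≤ ((e (Fin.castLE hm (Fin.last (l + 1))) : ℕ) : ℤ) := by linarith
        exact_mod_cast this
      have htH : t < H := lt_of_le_of_lt hz1n (hltH _)
      have htS : t ∈ S' := by
        by_cases htF : t ∈ S
        · exact mem_filter.2 ⟨htF, hzp⟩
        · exact absurd hzp (hk t (mem_sdiff.2 ⟨Finset.mem_range.2 htH, htF⟩))
      obtain ⟨j, hj⟩ := hrange t htS
      have hjl : j ≤ Fin.castLE hm (Fin.last (l + 1)) := by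
        rw [← e.le_iff_le, hj]
        exact hz1n
      have hjv : j.val < l + 2 := by
        rw [Fin.le_def] at hjl
        simp only [Fin.val_castLE, Fin.val_last] at hjl
        omega
      refine ⟨⟨j.val, hjv⟩, ?_⟩
      have e4 : Fin.castLE hm ⟨j.val, hjv⟩ = j := Fin.ext rfl
      simp only
      rw [e4, hj]
    · rintro ⟨i, rfl⟩
      exact (mem_filter.1 (hmem (Fin.castLE hm i))).2

/-- **Strings of consecutive prime values in residue classes, with monotone gaps, for almost all polynomials.** -/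
theorem result (D l Q : ℕ) (hQ : Squarefree Q) : ∃ H B : ℕ,
    ∀ (E C : ℕ) (ε : ℝ), 0 < ε → ∃ N₀ : ℕ, ∀ N : ℕ, N₀ ≤ N →
    ∀ W : Finset ℕ, (∀ J ∈ W, (J : ℝ) ≤ Real.log N ^ C) →
    ∀ P : Polynomial ℤ, P.natDegree ≤ D → (∀ i, |(P.coeff i : ℝ)| ≤ N * Real.log N ^ E) →
    ∃ Bad : Finset (ℤ × ℤ), (Bad.card : ℝ) ≤ ε * N ^ 2 ∧
      ∀ b c : ℤ, |b| ≤ N → |c| ≤ N → NoFixedDivisor (pol P b c) → (b, c) ∉ Bad →
        ∃ G ⊆ W, (1 - ε) * W.card ≤ G.card ∧ ∀ J ∈ G, HasStrings l (pol P b c) Q H B N J := by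
  classical
  have hQ0 : 0 < Q := Nat.pos_of_ne_zero hQ.ne_zero
  obtain ⟨K, B, hq⟩ := Pool.Agent.N688.ST.polynomials4 D (l + 2) Q hQ0
  obtain ⟨H, hH⟩ : ∃ H, H = Pool.Agent.N688.ST.ch Q K + Q := ⟨_, rfl⟩
  refine ⟨H, B + 1, fun E C ε hε => ?_⟩
  obtain ⟨X1, hX1⟩ := hq H (Pool.Agent.N688.ST.SI Q K) (hH ▸ Pool.Agent.N688.ST.SI_sub Q K hQ0)
    (Pool.Agent.N688.ST.SI_dvd Q K) (by omega) (Pool.Agent.N688.ST.card_SI Q K hQ0).ge E C (ε ^ 2 / 2)
    (by positivity)
  obtain ⟨X2, hX2⟩ := hq H (Pool.Agent.N688.ST.SD Q K) (hH ▸ Pool.Agent.N688.ST.SD_sub Q K hQ0)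
    (Pool.Agent.N688.ST.SD_dvd Q K) (by omega) (Pool.Agent.N688.ST.card_SD Q K hQ0).ge E C (ε ^ 2 / 2)
    (by positivity)
  obtain ⟨X3, hX3⟩ := eventually_atTop.1 (Pool.Agent.N913.MT.evt_log_ge (H + 2))
  refine ⟨max X1 (max X2 X3), fun N hN W hW P hPd hPc => ?_⟩
  have hXX1 : X1 ≤ N := (le_max_left _ _).trans hN
  have hXX2 : X2 ≤ N := ((le_max_left _ _).trans (le_max_right _ _)).trans hN
  have hXX3 : X3 ≤ N := ((le_max_right _ _).trans (le_max_right _ _)).trans hN
  have hlog : (H : ℝ) + 2 ≤ Real.log N := hX3 N hXX3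
  have hH0 : (0 : ℝ) ≤ H := Nat.cast_nonneg _
  have hlogB : Real.log N ^ B + H ≤ Real.log N ^ (B + 1) := by
    have h1 : (1 : ℝ) ≤ Real.log N ^ B := one_le_pow₀ (by linarith)
    have h2 : Real.log N ^ (B + 1) = Real.log N ^ B * Real.log N := pow_succ _ _
    nlinarith
  -- the pairs without fixed divisor
  obtain ⟨Ω, hΩ⟩ : ∃ Ω : Finset (ℤ × ℤ), Ω = ((Icc (-(N : ℤ)) N) ×ˢ (Icc (-(N : ℤ)) N)).filter
    (fun x => NoFixedDivisor (pol P x.1 x.2)) := ⟨_, rfl⟩
  obtain ⟨Bad, _, g2, g3⟩ := Pool.Agent.N913.MG.double Ω W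
    (fun x J => HasStrings l (pol P x.1 x.2) Q H (B + 1) N J) ε (N ^ 2) hε (by positivity) (by
    intro J hJ
    obtain ⟨B1, p1, p2⟩ := hX1 N hXX1 J (hW J hJ) P hPd hPc
    obtain ⟨B2, q1, q2⟩ := hX2 N hXX2 J (hW J hJ) P hPd hPc
    refine ⟨B1 ∪ B2, ?_, ?_⟩
    · have h3 : ((B1 ∪ B2).card : ℝ) ≤ B1.card + B2.card := by exact_mod_cast card_union_le _ _
      linarith
    · rintro ⟨b, c⟩ hx hkB a ha
      rw [hΩ, mem_filter, mem_product, mem_Icc, mem_Icc] at hx
      obtain ⟨⟨⟨b1, b2⟩, c1, c2⟩, hloc⟩ := hx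
      simp only at b1 b2 c1 c2 hloc ha
      rw [mem_union, not_or] at hkB
      have hval : ∀ t : ℤ, Pool.Agent.N913.MG.val P b c t = (pol P b c).eval t :=
        fun t => Pool.Agent.N913.MG.val_eval P b c t
      have hQz : (Q : ℤ) ≠ 0 := by exact_mod_cast hQ0.ne'
      obtain ⟨ρ, hρ⟩ : ∃ ρ : ℕ, (ρ : ℤ) = a % Q := ⟨(a % Q).toNat, by
        rw [Int.toNat_of_nonneg (Int.emod_nonneg _ hQz)]⟩
      have hρQ : ρ < Q := by
        have := Int.emod_lt_of_pos a (show (0 : ℤ) < Q by exact_mod_cast hQ0)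
        rw [← hρ] at this
        exact_mod_cast this
      have hρa : (Q : ℤ) ∣ a - ρ := by rw [hρ]; exact Int.dvd_self_sub_emod
      have hloc' : ∀ p : ℕ, p.Prime → ∃ t : ℤ, ¬ (p : ℤ) ∣ Pool.Agent.N913.MG.val P b c t := by
        intro p hp
        obtain ⟨t, ht⟩ := hloc p hp
        exact ⟨t, by rw [hval]; exact ht⟩
      have ha' : ∀ p : ℕ, p.Prime → p ∣ Q → ¬ (p : ℤ) ∣ Pool.Agent.N913.MG.val P b c (ρ : ℕ) := by
        intro p hp hpQ hd
        have h1 : (p : ℤ) ∣ (Q : ℤ) := by exact_mod_cast hpQ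
        have hd' : (p : ℤ) ∣ (pol P b c).eval a := by
          rw [← hval]
          exact (Pool.Agent.N913.MG.valP_mod P b c a (ρ : ℕ) p (h1.trans hρa)).2 hd
        obtain ⟨x, y, hxy⟩ := ha
        have h2 : (p : ℤ) ∣ 1 := by
          rw [← hxy]
          exact dvd_add (Dvd.dvd.mul_left hd' x) (h1.mul_left y)
        have h3 : p ∣ 1 := by exact_mod_cast h2
        exact hp.one_lt.ne' (Nat.dvd_one.1 h3)
      have hclass : ∀ n : ℕ, (∀ p : ℕ, p.Prime → p ∣ Q → n ≡ ρ [MOD p]) →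
          ∀ p : ℕ, p.Prime → p ∣ Q → (p : ℤ) ∣ (n : ℤ) - a := by
        intro n hn p hp hpQ
        have h1 : (p : ℤ) ∣ (Q : ℤ) := by exact_mod_cast hpQ
        have h2 : (p : ℤ) ∣ (ρ : ℤ) - n := Nat.modEq_iff_dvd.1 (hn p hp hpQ)
        have h3 := dvd_add (h1.trans hρa) h2
        have e : (n : ℤ) - a = -(a - ρ + (ρ - n)) := by ring
        rw [e]
        exact h3.neg_right
      have hev : ∀ n t : ℕ, Pool.Agent.N913.MG.val P b c (n + t : ℕ) =
          (pol P b c).eval ((n : ℤ) + (t : ℤ)) := by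
        intro n t
        rw [hval]
        push_cast
        rfl
      obtain ⟨n, n1, n2, n3, n4, n5⟩ := p2 b c (abs_le.2 ⟨b1, b2⟩) (abs_le.2 ⟨c1, c2⟩) hloc' hkB.1 ρ hρQ ha'
      obtain ⟨n', m1, m2, m3, m4, m5⟩ := q2 b c (abs_le.2 ⟨b1, b2⟩) (abs_le.2 ⟨c1, c2⟩) hloc' hkB.2 ρ hρQ ha'
      simp only [hev] at n4 n5 m4 m5
      have n1' : (J : ℝ) < n := by exact_mod_cast n1
      have m1' : (J : ℝ) < n' := by exact_mod_cast m1
      constructor
      · obtain ⟨y, y1, y2, y3⟩ := extract (pol P b c) Q H l n a J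
          (J + Real.log N ^ (B + 1)) _ (hH ▸ Pool.Agent.N688.ST.SI_sub Q K hQ0) hQ
          (Pool.Agent.N688.ST.SI_dvd Q K) n1' (by linarith) (hclass n n3) n4 n5
        refine ⟨_, y3, ?_⟩
        intro i j r hij hjr
        have h1 := Pool.Agent.N688.ST.SI_step Q K hQ0 _ _ _ (y2 i) (y2 j) (y2 r) (y1 hij) (y1 hjr)
        simp only [add_sub_add_left_eq_sub]
        exact h1
      · obtain ⟨y, y1, y2, y3⟩ := extract (pol P b c) Q H l n' a J
          (J + Real.log N ^ (B + 1)) _ (hH ▸ Pool.Agent.N688.ST.SD_sub Q K hQ0) hQ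
          (Pool.Agent.N688.ST.SD_dvd Q K) m1' (by linarith) (hclass n' m3) m4 m5
        refine ⟨_, y3, ?_⟩
        intro i j r hij hjr
        have h1 := Pool.Agent.N688.ST.SD_step Q K hQ0 _ _ _ (y2 i) (y2 j) (y2 r) (y1 hij) (y1 hjr)
        simp only [add_sub_add_left_eq_sub]
        exact h1)
  refine ⟨Bad, g2, fun b c hb hc hloc hbc => ?_⟩
  rw [abs_le] at hb hc
  exact g3 (b, c) (by
    rw [hΩ, mem_filter, mem_product, mem_Icc, mem_Icc]
    exact ⟨⟨hb, hc⟩, hloc⟩) hbc

end Pool.Agent.Results.MP_4d57ea_nt.StringsOfPrimeValues
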